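import Pool.Agent.Lib.MP_2e793b_nt.Iface

/-!
MP_2e793b_nt, module VALB: the value of a block is an exponential sum in `m`.
-/

set_option autoImplicit false

namespace Pool.Agent.Lib.MP_2e793b_nt.H31

open Finset Pool.Agent.Lib.MP_2e793b_nt

/-- exponential sums in `m` with a common denominator -/
def Good (b : ℕ) (f : ℕ → ℝ) : Prop := ∃ (D : ℤ) (J : List (ℤ × ℕ)), D ≠ 0 ∧
  ∀ m : ℕ, (D : ℝ) * f m = (J.map (fun j => (j.1 : ℝ) / (b : ℝ) ^ (j.2 * m))).sum

theorem sum_scale (b : ℕ) (c : ℤ) (m : ℕ) (J : List (ℤ × ℕ)) :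
    ((J.map (fun j => (c * j.1, j.2))).map
      (fun j : ℤ × ℕ => (j.1 : ℝ) / (b : ℝ) ^ (j.2 * m))).sum =
    (c : ℝ) * (J.map (fun j => (j.1 : ℝ) / (b : ℝ) ^ (j.2 * m))).sum := by
  induction J with
  | nil => simp
  | cons a J ih =>
    simp only [List.map_cons, List.sum_cons] at ih ⊢
    rw [ih]
    push_cast
    ring

theorem sum_shift (b s : ℕ) (m : ℕ) (J : List (ℤ × ℕ)) :
    ((J.map (fun j => (j.1, s + j.2))).map
      (fun j : ℤ × ℕ => (j.1 : ℝ) / (b : ℝ) ^ (j.2 * m))).sum =
    (J.map (fun j => (j.1 : ℝ) / (b : ℝ) ^ (j.2 * m))).sum / (b : ℝ) ^ (s * m) := by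
  induction J with
  | nil => simp
  | cons a J ih =>
    simp only [List.map_cons, List.sum_cons] at ih ⊢
    rw [ih, add_mul, pow_add, add_div, div_div, mul_comm ((b : ℝ) ^ (s * m))]

theorem good_add {b : ℕ} {f g : ℕ → ℝ} (hf : Good b f) (hg : Good b g) :
    Good b (fun m => f m + g m) := by
  obtain ⟨D, J, hD, hJ⟩ := hf
  obtain ⟨E, K, hE, hK⟩ := hg
  refine ⟨D * E, J.map (fun j => (E * j.1, j.2)) ++ K.map (fun j => (D * j.1, j.2)),
    mul_ne_zero hD hE, fun m => ?_⟩
  rw [List.map_append, List.sum_append, sum_scale, sum_scale, ← hJ, ← hK]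
  push_cast
  ring

theorem good_of_mul {b : ℕ} {f : ℕ → ℝ} (c : ℤ) (hc : c ≠ 0)
    (hf : Good b (fun m => (c : ℝ) * f m)) : Good b f := by
  obtain ⟨D, J, hD, hJ⟩ := hf
  refine ⟨D * c, J, mul_ne_zero hD hc, fun m => ?_⟩
  rw [← hJ]
  push_cast
  ring

theorem good_shift {b : ℕ} {f : ℕ → ℝ} (s : ℕ) (hf : Good b f) :
    Good b (fun m => f m / (b : ℝ) ^ (s * m)) := by
  obtain ⟨D, J, hD, hJ⟩ := hf
  refine ⟨D, J.map (fun j => (j.1, s + j.2)), hD, fun m => ?_⟩
  rw [sum_shift, ← hJ, mul_div_assoc]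

theorem good_int (b : ℕ) (c : ℤ) : Good b (fun _ => (c : ℝ)) :=
  ⟨1, [(c, 0)], one_ne_zero, fun m => by simp⟩

/-- `b ^ |v| * val b v` is an integer -/
theorem val_int (b : ℕ) (hb : 2 ≤ b) (v : List ℤ) :
    ∃ k : ℤ, (b : ℝ) ^ v.length * val b v = k := by
  have hb0 : (b : ℝ) ≠ 0 := by positivity
  induction v with
  | nil => exact ⟨0, by simp [val]⟩
  | cons d v ih =>
    obtain ⟨k, hk⟩ := ih
    refine ⟨(b : ℤ) ^ v.length * d + k, ?_⟩
    have h1 : val b (d :: v) = ((d : ℝ) + val b v) / b := rfl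
    rw [h1, List.length_cons, pow_succ]
    push_cast
    rw [← hk]
    field_simp

theorem val_append (b : ℕ) (hb : 2 ≤ b) (v w : List ℤ) :
    val b (v ++ w) = val b v + val b w / (b : ℝ) ^ v.length := by
  have hb0 : (b : ℝ) ≠ 0 := by positivity
  induction v with
  | nil => simp [val]
  | cons d v ih =>
    have h1 : val b (d :: (v ++ w)) = ((d : ℝ) + val b (v ++ w)) / b := rfl
    have h2 : val b (d :: v) = ((d : ℝ) + val b v) / b := rfl
    rw [List.cons_append, h1, h2, ih, List.length_cons, pow_succ]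
    field_simp
    ring

theorem val_rep (b : ℕ) (hb : 2 ≤ b) (q : List ℤ) (m : ℕ) :
    ((b : ℝ) ^ q.length - 1) * val b (List.replicate m q).flatten =
      (b : ℝ) ^ q.length * val b q * (1 - 1 / (b : ℝ) ^ (q.length * m)) := by
  have hb0 : (b : ℝ) ≠ 0 := by positivity
  have hp : (b : ℝ) ^ q.length ≠ 0 := pow_ne_zero _ hb0
  induction m with
  | zero => simp [val]
  | succ m ih =>
    have h1 : (List.replicate (m + 1) q).flatten = q ++ (List.replicate m q).flatten := by
      rw [List.replicate_succ, List.flatten_cons]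
    rw [h1, val_append b hb, mul_add, ← mul_div_assoc, ih, Nat.mul_succ, pow_add]
    have hpm : (b : ℝ) ^ (q.length * m) ≠ 0 := pow_ne_zero _ hb0
    field_simp
    ring

theorem good_rep (b : ℕ) (hb : 2 ≤ b) (q : List ℤ) :
    Good b (fun m => val b (List.replicate m q).flatten) := by
  by_cases hq : q.length = 0
  · have h1 : q = [] := List.length_eq_zero_iff.1 hq
    subst h1
    have h2 : (fun m : ℕ => val b (List.replicate m ([] : List ℤ)).flatten) =
        fun _ => ((0 : ℤ) : ℝ) := by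
      funext m
      have h3 : (List.replicate m ([] : List ℤ)).flatten = [] := by
        rw [List.flatten_eq_nil_iff]
        intro l hl
        exact List.eq_of_mem_replicate hl
      rw [h3]
      simp [val]
    rw [h2]
    exact good_int b 0
  · obtain ⟨k, hk⟩ := val_int b hb q
    have hne : ((b : ℤ) ^ q.length - 1) ≠ 0 := by
      have h1 : (1 : ℤ) < (b : ℤ) ^ q.length := one_lt_pow₀ (by exact_mod_cast hb) hq
      omega
    refine good_of_mul ((b : ℤ) ^ q.length - 1) hne ?_
    have h2 : (fun m : ℕ => (((b : ℤ) ^ q.length - 1 : ℤ) : ℝ) *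
        val b (List.replicate m q).flatten) =
        fun m : ℕ => ((k : ℤ) : ℝ) + (((-k : ℤ) : ℝ)) / (b : ℝ) ^ (q.length * m) := by
      funext m
      push_cast
      rw [val_rep b hb, hk]
      ring
    rw [h2]
    exact good_add (good_int b k) (good_shift q.length (good_int b (-k)))

theorem rep_length (q : List ℤ) (m : ℕ) :
    (List.replicate m q).flatten.length = q.length * m := by
  simp [mul_comm]

theorem valb : ValbStmt := by
  intro b zy hb
  have hb0 : (b : ℝ) ≠ 0 := by positivity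
  change Good b (fun m => val b (blk zy m))
  induction zy with
  | nil =>
    have h : (fun m : ℕ => val b (blk ([] : List (List ℤ × List ℤ)) m)) =
        fun _ => ((0 : ℤ) : ℝ) := by
      funext m
      simp [blk, val]
    rw [h]
    exact good_int b 0
  | cons q zy ih =>
    obtain ⟨k, hk⟩ := val_int b hb q.1
    have hp : ((b : ℤ) ^ q.1.length) ≠ 0 := pow_ne_zero _ (by omega)
    refine good_of_mul ((b : ℤ) ^ q.1.length) hp ?_
    have h : (fun m : ℕ => (((b : ℤ) ^ q.1.length : ℤ) : ℝ) * val b (blk (q :: zy) m)) =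
        fun m : ℕ => ((k : ℤ) : ℝ) + (val b (List.replicate m q.2).flatten +
          val b (blk zy m) / (b : ℝ) ^ (q.2.length * m)) := by
      funext m
      have h1 : blk (q :: zy) m = q.1 ++ ((List.replicate m q.2).flatten ++ blk zy m) := by
        simp [blk]
      rw [h1, val_append b hb, val_append b hb, rep_length, ← hk]
      push_cast
      have hpl : (b : ℝ) ^ q.1.length ≠ 0 := pow_ne_zero _ hb0
      field_simp
    rw [h]
    exact good_add (good_int b k) (good_add (good_rep b hb q.2) (good_shift q.2.length ih))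

end Pool.Agent.Lib.MP_2e793b_nt.H31
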